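import Pool.Agent.H26.LP.Stm

/-!
# Project LP (helper26), module INS (helper39): the instance of the scheme
-/

set_option autoImplicit false

namespace Pool.Agent.H39.LP

open MeasureTheory Set Metric Filter Topology
open scoped InnerProductSpace ENNReal NNReal ComplexConjugate
open Pool.Agent.Q130.TC (WT cau S_CAU)
open Pool.Agent.Q130.TR
open Pool.Agent.H50.SM (df)
open Pool.Agent.H26.LP

variable {S : Type} [MeasurableSpace S] {μ : Measure S}

lemma mul_le {w : ℕ → S → ℂ} {B : ℝ} (hw : Mul1 μ w B) : ∀ᵐ s ∂μ, ∀ i, ‖w i s‖ ≤ B := by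
  filter_upwards [hw.bound] with s hs i
  have h1 := hs (i + 1)
  have h2 : ‖w i s‖ ^ 2 ≤ ∑ j ∈ Finset.range (i + 1), ‖w j s‖ ^ 2 :=
    Finset.single_le_sum (f := fun j => ‖w j s‖ ^ 2) (fun j _ => by positivity)
      (Finset.self_mem_range_succ i)
  exact (sq_le_sq₀ (norm_nonneg _) hw.nonneg).1 (h2.trans h1)

lemma mul_int {w : ℕ → S → ℂ} {B : ℝ} (hw : Mul1 μ w B) {k : S → ℂ} (hk : Integrable k μ)
    (i : ℕ) : Integrable (fun s => w i s * k s) μ := by
  refine (hk.norm.const_mul B).mono' ((hw.meas i).aestronglyMeasurable.mul hk.1) ?_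
  filter_upwards [mul_le hw] with s hs
  rw [norm_mul]
  exact mul_le_mul_of_nonneg_right (hs i) (norm_nonneg _)

/-- the coefficients are square summable -/
lemma rho_sq {w : ℕ → S → ℂ} {B : ℝ} (hw : Mul1 μ w B) {k : S → ℂ} (hk : Integrable k μ) :
    Summable fun j => ‖∫ s, w (j + 1) s * k s ∂μ‖ ^ 2 := by
  set ρ : ℕ → ℂ := fun j => ∫ s, w (j + 1) s * k s ∂μ with hρ
  set D : ℝ := B * ∫ s, ‖k s‖ ∂μ with hD
  have hD0 : 0 ≤ D := mul_nonneg hw.nonneg (integral_nonneg fun s => norm_nonneg _)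
  refine summable_of_sum_range_le (c := D ^ 2) (fun j => by positivity) fun m => ?_
  set Q : ℝ := ∑ j ∈ Finset.range m, ‖ρ j‖ ^ 2 with hQ
  have hQ0 : 0 ≤ Q := Finset.sum_nonneg fun j _ => by positivity
  have h1 : ((Q : ℝ) : ℂ) = ∫ s, (∑ j ∈ Finset.range m, conj (ρ j) * w (j + 1) s) * k s ∂μ := by
    have h2 : ∀ s, (∑ j ∈ Finset.range m, conj (ρ j) * w (j + 1) s) * k s =
        ∑ j ∈ Finset.range m, conj (ρ j) * (w (j + 1) s * k s) := by
      intro s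
      rw [Finset.sum_mul]
      exact Finset.sum_congr rfl fun j _ => by ring
    simp only [h2]
    rw [integral_finsetSum _ fun j _ => (mul_int hw hk (j + 1)).const_mul _]
    simp only [integral_const_mul]
    rw [hQ]
    push_cast
    refine Finset.sum_congr rfl fun j _ => ?_
    show _ = conj (ρ j) * ρ j
    rw [← Complex.normSq_eq_conj_mul_self, Complex.normSq_eq_norm_sq]
    push_cast
    ring
  have h3 : Q ≤ √Q * D := by
    have h4 : Q = ‖((Q : ℝ) : ℂ)‖ := by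
      rw [Complex.norm_real, Real.norm_eq_abs, abs_of_nonneg hQ0]
    rw [h4, h1, ← h1]
    rw [show ‖((Q : ℝ) : ℂ)‖ = Q from h4.symm]
    calc Q = ‖∫ s, (∑ j ∈ Finset.range m, conj (ρ j) * w (j + 1) s) * k s ∂μ‖ := by
          rw [← h1]
          exact h4
      _ ≤ ∫ s, (√Q * B) * ‖k s‖ ∂μ := by
          refine norm_integral_le_of_norm_le (hk.norm.const_mul _) ?_
          filter_upwards [hw.bound] with s hs
          rw [norm_mul]
          refine mul_le_mul_of_nonneg_right ?_ (norm_nonneg _)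
          calc ‖∑ j ∈ Finset.range m, conj (ρ j) * w (j + 1) s‖
              ≤ ∑ j ∈ Finset.range m, ‖ρ j‖ * ‖w (j + 1) s‖ := by
                refine norm_sum_le_of_le _ fun j _ => ?_
                rw [norm_mul, Complex.norm_conj]
            _ ≤ √(∑ j ∈ Finset.range m, ‖ρ j‖ ^ 2) *
                √(∑ j ∈ Finset.range m, ‖w (j + 1) s‖ ^ 2) :=
                Real.sum_mul_le_sqrt_mul_sqrt _ _ _
            _ ≤ √Q * B := by
                refine mul_le_mul_of_nonneg_left ?_ (Real.sqrt_nonneg _)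
                refine Real.sqrt_le_iff.2 ⟨hw.nonneg, le_trans ?_ (hs (m + 1))⟩
                rw [Finset.sum_range_succ' (fun j => ‖w j s‖ ^ 2)]
                have : 0 ≤ ‖w 0 s‖ ^ 2 := by positivity
                linarith
      _ = √Q * D := by
          rw [integral_const_mul, hD]
          ring
  have h5 : √Q ≤ D := by
    rcases (Real.sqrt_nonneg Q).eq_or_lt with h | h
    · rw [← h]
      exact hD0
    · have h6 : √Q * √Q ≤ √Q * D := by
        rw [Real.mul_self_sqrt hQ0]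
        exact h3
      exact le_of_mul_le_mul_left h6 h
  calc Q = √Q ^ 2 := (Real.sq_sqrt hQ0).symm
    _ ≤ D ^ 2 := pow_le_pow_left₀ (Real.sqrt_nonneg _) h5 2

/-- the value of a convergent series in `L¹` -/
lemma hasSum_ae {f : ℕ → Lp ℂ 1 μ} {Y : S → ℝ} (hf : Sqf μ (fun j => (f j : S → ℂ)) Y)
    {ρ : ℕ → ℂ} (hρ : Summable fun j => ‖ρ j‖ ^ 2) {g : Lp ℂ 1 μ}
    (h : HasSum (fun j => ρ j • f (j + 1)) g) :
    ∀ᵐ s ∂μ, HasSum (fun j => ρ j * f (j + 1) s) (g s) := by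
  have h1 := tendstoInMeasure_of_tendsto_Lp h.tendsto_sum_nat
  obtain ⟨ns, hns, hns2⟩ := h1.exists_seq_tendsto_ae
  have h2 : ∀ᵐ s ∂μ, ∀ n : ℕ, ((∑ j ∈ Finset.range n, ρ j • f (j + 1) : Lp ℂ 1 μ) : S → ℂ) s =
      ∑ j ∈ Finset.range n, ρ j * f (j + 1) s := by
    rw [ae_all_iff]
    intro n
    have h3 : ∀ᵐ s ∂μ, ∀ j : ℕ, ((ρ j • f (j + 1) : Lp ℂ 1 μ) : S → ℂ) s = ρ j * f (j + 1) s := by
      rw [ae_all_iff]
      intro j
      filter_upwards [Lp.coeFn_smul (ρ j) (f (j + 1))] with s hs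
      rw [hs]
      rfl
    filter_upwards [Lp.coeFn_finsetSum (Finset.range n) (fun j => ρ j • f (j + 1)), h3]
      with s hs hs3
    rw [hs, Finset.sum_apply]
    exact Finset.sum_congr rfl fun j _ => hs3 j
  filter_upwards [hns2, h2, hf.bound] with s a1 a2 a3
  have b1 : Summable fun j => ‖f j s‖ ^ 2 :=
    summable_of_sum_range_le (fun j => by positivity) a3
  have b2 : Summable fun j => ‖f (j + 1) s‖ ^ 2 := (summable_nat_add_iff 1).2 b1
  have b3 : Summable fun j => ρ j * f (j + 1) s := by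
    refine Summable.of_norm_bounded (hρ.add b2) fun j => ?_
    rw [norm_mul]
    nlinarith [sq_nonneg (‖ρ j‖ - ‖f (j + 1) s‖), sq_nonneg ‖ρ j‖, sq_nonneg ‖f (j + 1) s‖]
  have b4 := (b3.hasSum.tendsto_sum_nat).comp hns.tendsto_atTop
  have b5 : Tendsto (fun i => ∑ j ∈ Finset.range (ns i), ρ j * f (j + 1) s) atTop (𝓝 (g s)) := by
    refine a1.congr fun i => ?_
    exact a2 (ns i)
  have b6 := tendsto_nhds_unique b5 b4
  rw [b6]
  exact b3.hasSum

/-- INS -/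
theorem ins (hCAU : S_CAU) (hVEC : S_VEC) (hMAT : S_MAT) (hEIG : S_EIG) : S_INS := by
  intro S _ μ _ φ E _ _ A K J w x B Y hD
  obtain ⟨hV1, ⟨C₁, hC₁, hV2⟩, hV3⟩ := hVEC
  obtain ⟨C₂, hC₂, hM⟩ := hMAT
  obtain ⟨hM1, hM2⟩ := hM S μ φ w _ B Y hD.mφ hD.mw hD.sf
  have hB0 := hD.mw.nonneg
  have hJ0 : 0 ≤ ‖J‖ := norm_nonneg J
  have mJ : ∀ y, Measurable (J y : S → ℂ) := fun y => (Lp.stronglyMeasurable (J y)).measurable
  have iJ : ∀ y, Integrable (J y : S → ℂ) μ := fun y => L1.integrable_coeFn (J y)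
  have nJ : ∀ y, ∫ s, ‖(J y : S → ℂ) s‖ ∂μ ≤ ‖J‖ * ‖y‖ := fun y => by
    rw [← L1.norm_eq_integral_norm]
    exact J.le_opNorm y
  refine ⟨C₁ * (B * ‖J‖ + 1) + C₂, ?_, ?_, ?_, ?_, ?_, ?_, ?_, hM1, ?_, ?_⟩
  · positivity
  · intro y
    exact (hV1 S μ φ w B _ hD.mφ hD.mw (mJ y) (iJ y)).1
  · intro y
    exact (hV1 S μ φ w B _ hD.mφ hD.mw (mJ y) (iJ y)).2
  · intro y y'
    have h1 : ∀ y, ∀ᵐ z : ℂ, ∀ i, Integrable (fun s => (w i s * J y s) * (z - φ s)⁻¹) μ := by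
      intro y
      rw [ae_all_iff]
      intro i
      exact (hCAU.1 S μ φ _ hD.mφ (mul_int hD.mw (iJ y) i)).2.2
    filter_upwards [h1 y, h1 y'] with z a1 a2 i
    show ∫ s, (w i s * J (y + y') s) * (z - φ s)⁻¹ ∂μ = ∫ s, (w i s * J y s) * (z - φ s)⁻¹ ∂μ +
      ∫ s, (w i s * J y' s) * (z - φ s)⁻¹ ∂μ
    rw [← integral_add (a1 i) (a2 i)]
    refine integral_congr_ae ?_
    rw [map_add]
    filter_upwards [Lp.coeFn_add (J y) (J y')] with s hs
    rw [hs, Pi.add_apply]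
    ring
  · intro a y
    refine Eventually.of_forall fun z i => ?_
    show ∫ s, (w i s * J (a • y) s) * (z - φ s)⁻¹ ∂μ =
      a * ∫ s, (w i s * J y s) * (z - φ s)⁻¹ ∂μ
    rw [← integral_const_mul]
    refine integral_congr_ae ?_
    rw [map_smul]
    filter_upwards [Lp.coeFn_smul a (J y)] with s hs
    rw [hs, Pi.smul_apply, smul_eq_mul]
    ring
  · intro a r
    obtain ⟨M, hM0, h1⟩ := hV3 a r
    refine ⟨M * (B * ‖J‖), by positivity, fun y => ?_⟩
    refine (h1 S μ φ w B _ hD.mφ hD.mw (mJ y) (iJ y)).trans (ENNReal.ofReal_le_ofReal ?_)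
    calc M * (B * ∫ s, ‖(J y : S → ℂ) s‖ ∂μ) ≤ M * (B * (‖J‖ * ‖y‖)) := by
          gcongr
          exact nJ y
      _ = M * (B * ‖J‖) * ‖y‖ := by ring
  · intro h C δ h1 h2 hC hδ hWT y t ht
    refine (hV2 h C δ h1 h2 hC hδ hWT S μ φ w B _ hD.mφ hD.mw (mJ y) (iJ y) t ht).trans ?_
    have e1 : C * (B * ∫ s, ‖(J y : S → ℂ) s‖ ∂μ) / t ≤ (B * ‖J‖) * (C * ‖y‖ / t) := by
      calc C * (B * ∫ s, ‖(J y : S → ℂ) s‖ ∂μ) / t ≤ C * (B * (‖J‖ * ‖y‖)) / t := by
            gcongr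
            exact nJ y
        _ = (B * ‖J‖) * (C * ‖y‖ / t) := by ring
    have e2 : 0 ≤ C * ‖y‖ / t := by positivity
    have e3 : 0 ≤ B * ‖J‖ := by positivity
    calc C₁ * (C * (B * ∫ s, ‖(J y : S → ℂ) s‖ ∂μ) / t + δ)
        ≤ C₁ * ((B * ‖J‖) * (C * ‖y‖ / t) + δ) := by gcongr
      _ ≤ C₁ * ((B * ‖J‖ + 1) * (C * ‖y‖ / t + δ)) := by
          refine mul_le_mul_of_nonneg_left ?_ hC₁.le
          nlinarith
      _ ≤ (C₁ * (B * ‖J‖ + 1) + C₂) * (C * ‖y‖ / t + δ) := by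
          have : 0 ≤ C₂ * (C * ‖y‖ / t + δ) := by positivity
          nlinarith
  · filter_upwards [hM2] with a ha
    intro κ ε C hκ hε hC
    obtain ⟨ρ₀, hρ, h1⟩ := ha κ ε C hκ hε hC
    refine ⟨ρ₀, hρ, fun r δ h hr hr' hδ hi h0 hs hWT => ?_⟩
    refine (h1 r δ h hr hr' hδ hi h0 hs hWT).trans ?_
    have : 0 ≤ C₁ * (B * ‖J‖ + 1) * δ := by positivity
    nlinarith
  · intro y
    refine hEIG S μ φ w _ B Y hD.mφ hD.bφ hD.mw hD.sf _ _ (mJ y) (iJ y) (mJ _) (iJ _)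
      (hD.ann y) ?_
    have h1 : HasSum (fun j => (∫ s, w (j + 1) s * J y s ∂μ) • J (x (j + 1))) (J (K y)) := by
      have h2 := J.hasSum (hD.rep y)
      simpa only [map_smul] using h2
    have h2 := hasSum_ae hD.sf (rho_sq hD.mw (iJ y)) h1
    filter_upwards [h2, hD.JA y, Lp.coeFn_add (J (A y)) (J (K y))] with s a1 a2 a3
    have a4 : J ((A + K) y) = J (A y) + J (K y) := by
      rw [_root_.add_apply, map_add]
    rw [a4, a3, Pi.add_apply, a2, add_sub_cancel_left]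
    exact a1

end Pool.Agent.H39.LP
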